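import Pool.Agent.H56.Plk5

set_option autoImplicit false

namespace Pool.Agent.Results.MP_828627_an.NotPlichko
open Set Pool.Agent.H56.Plk

/-- `N` is norming: for some `c > 0`, `sup {|f x| : f ∈ N, ‖f‖ ≤ 1} ≥ c ‖x‖` for all `x`. -/
def Norming {X : Type} [NormedAddCommGroup X] [NormedSpace ℝ X]
    (N : Submodule ℝ (X →L[ℝ] ℝ)) : Prop :=
  ∃ c : ℝ, 0 < c ∧ ∀ x : X, c * ‖x‖ ≤ sSup {r : ℝ | ∃ f ∈ N, ‖f‖ ≤ 1 ∧ r = |f x|}

/-- `X` is Plichko: there are a linearly dense set `S` and a norming subspace `N` of the dual such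
that every `f ∈ N` is nonzero at only countably many points of `S`. -/
def Plichko (X : Type) [NormedAddCommGroup X] [NormedSpace ℝ X] : Prop :=
  ∃ (S : Set X) (N : Submodule ℝ (X →L[ℝ] ℝ)), Dense (Submodule.span ℝ S : Set X) ∧ Norming N ∧
    ∀ f ∈ N, {s | s ∈ S ∧ f s ≠ 0}.Countable

lemma iff_pl (X : Type) [NormedAddCommGroup X] [NormedSpace ℝ X] : Plichko X ↔ Pl X := by
  constructor
  · rintro ⟨S, N, h1, ⟨c, hc, h2⟩, h3⟩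
    refine ⟨S, N, c / 2, by positivity, h1, fun x => ?_, h3⟩
    rcases (norm_nonneg x).eq_or_lt with h | h
    · exact ⟨0, N.zero_mem, by simp, by simp [← h]⟩
    · obtain ⟨_, ⟨f, hf, f1, rfl⟩, f2⟩ := exists_lt_of_lt_csSup
        (s := {r : ℝ | ∃ f ∈ N, ‖f‖ ≤ 1 ∧ r = |f x|}) ⟨_, 0, N.zero_mem, by simp, rfl⟩
        ((show c / 2 * ‖x‖ < c * ‖x‖ by nlinarith).trans_le (h2 x))
      exact ⟨f, hf, f1, f2.le⟩
  · rintro ⟨S, N, c, hc, h1, h2, h3⟩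
    refine ⟨S, N, h1, ⟨c, hc, fun x => ?_⟩, h3⟩
    obtain ⟨f, hf, f1, f2⟩ := h2 x
    refine f2.trans (le_csSup ⟨‖x‖, ?_⟩ ⟨f, hf, f1, rfl⟩)
    rintro _ ⟨g, -, g1, rfl⟩
    exact (g.le_opNorm x).trans (mul_le_of_le_one_left (norm_nonneg _) g1)

theorem result : ∃ (X : Type) (_ : NormedAddCommGroup X) (_ : NormedSpace ℝ X) (_ : CompleteSpace X),
    Plichko ((X →L[ℝ] ℝ) →L[ℝ] ℝ) ∧ ¬ Plichko X := by
  obtain ⟨X, _, _, _, hP, Y, hY, hn⟩ := main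
  refine ⟨X, _, _, ‹_›, (iff_pl _).2 hP, fun h => ?_⟩
  obtain ⟨Z, hYZ, -, hZ, P, p1, p2⟩ := ((iff_pl X).1 h).scp Y hY
  exact hn Z P hZ p1 fun y hy => p2 y (hYZ hy)

end Pool.Agent.Results.MP_828627_an.NotPlichko
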